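import Pool.Agent.H7.GH.Fin

/-!
# The Gromov-Hausdorff equivalence relation is Borel reducible to an orbit equivalence relation
-/

namespace Pool.Agent.Results.MP_6859fc_lc.GHOrbit

open Pool.Agent.H82.GH

/-- There are a Polish group `G`, a Polish space `Y` on which `G` acts continuously and a Borel map `θ`
from the space of all metrics on `ℕ` to `Y` such that for all metrics `f`, `g` on `ℕ` the completions of
`(ℕ, f)` and `(ℕ, g)` have Gromov-Hausdorff distance `0` iff `θ f` and `θ g` are in the same orbit. -/
theorem result :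
    ∃ (G : Type) (_ : Group G) (_ : TopologicalSpace G) (_ : IsTopologicalGroup G)
      (_ : PolishSpace G) (Y : Type) (_ : TopologicalSpace Y) (_ : PolishSpace Y)
      (_ : MeasurableSpace Y) (_ : BorelSpace Y) (_ : MulAction G Y) (_ : ContinuousSMul G Y)
      (θ : Met → Y), Measurable θ ∧
        ∀ f g, ghDist (Space f) (Space g) = 0 ↔ ∃ γ : G, γ • θ f = θ g :=
  Pool.Agent.H7.GH.main

end Pool.Agent.Results.MP_6859fc_lc.GHOrbit
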